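import Mathlib

/-!
# Dense orbits on surfaces: discrete valuation rings which are totally invariant
-/

set_option autoImplicit false

namespace Pool.Agent.Lib.MP_16285c_agS

/-- The discrete valuation ring `O` of `E` over `k` is totally invariant under the endomorphism `ρ` of `E` : `ρ⁻¹(O) = O`, uniformizers go to
uniformizers, and `O` is the only discrete valuation ring with this preimage. -/
structure InTI (k E : Type) [Field k] [Field E] [Algebra k E] (ρ : E →ₐ[k] E) (O : ValuationSubring E) : Prop where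
  dvr : IsDiscreteValuationRing O
  con : ∀ c : k, algebraMap k E c ∈ O
  inv : ∀ x : E, ρ x ∈ O ↔ x ∈ O
  uni : ∀ u : O, Irreducible u → ∃ v : O, (v : E) = ρ u ∧ Irreducible v
  uq : ∀ O₁ : ValuationSubring E, IsDiscreteValuationRing O₁ → (∀ c : k, algebraMap k E c ∈ O₁) →
    (∀ x : E, ρ x ∈ O₁ ↔ x ∈ O) → O₁ = O

/-- Section E of note 4871. -/
def StmtDegV : Prop :=
  ∀ (k E : Type) [Field k] [Field E] [Algebra k E] (ρ : E →ₐ[k] E) (O : ValuationSubring E),
    IsDiscreteValuationRing O → (∀ c : k, algebraMap k E c ∈ O) → (∀ x : E, ρ x ∈ O ↔ x ∈ O) →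
    ∀ T : ℕ, 1 ≤ T → Module.finrank ρ.fieldRange E = T → ∀ θ : Fin T → E, (∀ i, θ i ∈ O) →
    (∀ a : Fin T → E, (∀ i, a i ∈ O) → O.valuation (∑ i, ρ (a i) * θ i) < 1 →
      ∀ i, O.valuation (a i) < 1) → InTI k E ρ O

/-- Section F of note 4871 (`CAN`). -/
def StmtCan : Prop :=
  ∀ (k E : Type) [Field k] [CharZero k] [Field E] [Algebra k E] (ρ : E →ₐ[k] E) (x : Fin 2 → E),
    AlgebraicIndependent k x → Module.Finite (IntermediateField.adjoin k (Set.range x)) E →
    Module.Finite ρ.fieldRange E → (∀ h : E, ρ h = h → ∃ c : k, h = algebraMap k E c) →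
    ∃ Γ : MvPolynomial (Fin 2) k, Γ ≠ 0 ∧ ∀ O : ValuationSubring E, InTI k E ρ O → (∀ i, x i ∈ O) →
      (∃ R : MvPolynomial (Fin 2) k, R ≠ 0 ∧ O.valuation (MvPolynomial.aeval x R) < 1) →
      (∃ i, ∀ G : Polynomial k, G ≠ 0 → ¬ O.valuation (Polynomial.aeval (x i) G) < 1) →
      O.valuation (MvPolynomial.aeval x Γ) < 1

end Pool.Agent.Lib.MP_16285c_agS
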